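import Mathlib

/-!
# MP_24ecc9: dense proximality for the endograph metric does not pass to the hyperspace

A metric space `X` (a subspace of a sequence space over a countable alphabet) with the shift, such
that the Zadeh extension has a dense proximal relation for the endograph metric, but the
hyperextension has no dense proximal relation.
-/

set_option autoImplicit false
open Filter Topology TopologicalSpace

namespace Pool.Agent.Results.MP_24ecc9_an.ZigZag

/-! ## The notions of the problem -/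

/-- A normal fuzzy set: upper semicontinuous, values in `[0,1]`, value `1` somewhere, compact
support. -/
structure Fuzzy (X : Type) [MetricSpace X] where
  /-- the membership function -/
  u : X → ℝ
  nonneg : ∀ x, 0 ≤ u x
  le_one : ∀ x, u x ≤ 1
  usc : UpperSemicontinuous u
  normal : ∃ x, u x = 1
  cpt : IsCompact (closure {x | 0 < u x})

/-- The Zadeh extension `f̂(u)(y) = sup {u(x) : f(x) = y}` (with `sup ∅ = 0`). -/
noncomputable def zadeh {X : Type} (f : X → X) (u : X → ℝ) (y : X) : ℝ :=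
  sSup (u '' (f ⁻¹' {y}))

/-- The endograph. -/
def endo {X : Type} (u : X → ℝ) : Set (X × ℝ) := {p | 0 ≤ p.2 ∧ p.2 ≤ 1 ∧ p.2 ≤ u p.1}

/-- The endograph metric: Hausdorff distance for the maximum metric on `X × [0,1]`. -/
noncomputable def dE {X : Type} [MetricSpace X] (u v : X → ℝ) : ℝ :=
  Metric.hausdorffDist (endo u) (endo v)

/-- `(F(X), d_E, f̂)` has a dense proximal relation. -/
def DenseProximalFuzzy {X : Type} [MetricSpace X] (f : X → X) : Prop :=
  ∀ (u v : Fuzzy X) (ε : ℝ), 0 < ε → ∃ u' v' : Fuzzy X, dE u.u u'.u < ε ∧ dE v.u v'.u < ε ∧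
    ∀ δ : ℝ, 0 < δ → ∃ᶠ n in atTop, dE ((zadeh f)^[n] u'.u) ((zadeh f)^[n] v'.u) < δ

/-- `(K(X), d_H, f̄)` has a dense proximal relation. -/
def DenseProximalHyper {X : Type} [MetricSpace X] (f : X → X) (hf : Continuous f) : Prop :=
  ∀ (K L : NonemptyCompacts X) (ε : ℝ), 0 < ε → ∃ K' L' : NonemptyCompacts X,
    dist K K' < ε ∧ dist L L' < ε ∧
    ∀ δ : ℝ, 0 < δ → ∃ᶠ n in atTop,
      dist ((NonemptyCompacts.map f hf)^[n] K') ((NonemptyCompacts.map f hf)^[n] L') < δ

/-! ## Zadeh iterates -/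

section zadeh

variable {X : Type} (f : X → X) (u : X → ℝ) (h0 : ∀ x, 0 ≤ u x) (h1 : ∀ x, u x ≤ 1)

include h0 in
lemma zadeh_nonneg (y : X) : 0 ≤ zadeh f u y := by
  refine Real.sSup_nonneg ?_
  rintro _ ⟨x, -, rfl⟩
  exact h0 x

include h1 in
lemma zadeh_le_one (y : X) : zadeh f u y ≤ 1 := by
  refine Real.sSup_le ?_ zero_le_one
  rintro _ ⟨x, -, rfl⟩
  exact h1 x

include h0 h1 in
lemma iter_bounds (n : ℕ) : (∀ y, 0 ≤ (zadeh f)^[n] u y) ∧ ∀ y, (zadeh f)^[n] u y ≤ 1 := by
  induction n with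
  | zero => exact ⟨h0, h1⟩
  | succ n ih =>
    rw [Function.iterate_succ_apply']
    exact ⟨zadeh_nonneg f _ ih.1, zadeh_le_one f _ ih.2⟩

include h0 h1 in
lemma le_iter (n : ℕ) (x : X) : u x ≤ (zadeh f)^[n] u (f^[n] x) := by
  induction n with
  | zero => exact le_rfl
  | succ n ih =>
    rw [Function.iterate_succ_apply', Function.iterate_succ_apply']
    refine ih.trans (le_csSup ⟨1, ?_⟩ ⟨f^[n] x, rfl, rfl⟩)
    rintro _ ⟨z, -, rfl⟩
    exact (iter_bounds f u h0 h1 n).2 z

omit h0 h1 in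
lemma lt_iter (n : ℕ) {s : ℝ} (hs : 0 ≤ s) (y : X) (h : s < (zadeh f)^[n] u y) :
    ∃ x, f^[n] x = y ∧ s < u x := by
  induction n generalizing y with
  | zero => exact ⟨y, rfl, h⟩
  | succ n ih =>
    rw [Function.iterate_succ_apply'] at h
    have hne : ((zadeh f)^[n] u '' (f ⁻¹' {y})).Nonempty := by
      by_contra hcon
      rw [Set.not_nonempty_iff_eq_empty] at hcon
      unfold zadeh at h
      change s < sSup ((zadeh f)^[n] u '' (f ⁻¹' {y})) at h
      rw [hcon, Real.sSup_empty] at h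
      linarith
    obtain ⟨_, ⟨x, hx, rfl⟩, hlt⟩ := exists_lt_of_lt_csSup hne h
    obtain ⟨w, hw1, hw2⟩ := ih x hlt
    refine ⟨w, ?_, hw2⟩
    rw [Function.iterate_succ_apply', hw1]
    exact hx

end zadeh

/-! ## Push-forward of a continuous function on a compact space -/

lemma push {X : Type} [MetricSpace X] {A : Type} [TopologicalSpace A] [CompactSpace A] (G : A → X)
    (hG : Continuous G) (φ : A → ℝ) (hφ : Continuous φ) (h0 : ∀ a, 0 ≤ φ a) (h1 : ∀ a, φ a ≤ 1)
    (hn : ∃ a, φ a = 1) : ∃ u' : Fuzzy X, (∀ a, φ a ≤ u'.u (G a)) ∧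
      ∀ x, 0 < u'.u x → ∃ a, G a = x ∧ φ a = u'.u x := by
  set w : X → ℝ := fun x => sSup (φ '' (G ⁻¹' {x})) with hw
  have hbdd : ∀ x, BddAbove (φ '' (G ⁻¹' {x})) := fun x => ⟨1, by
    rintro _ ⟨a, -, rfl⟩; exact h1 a⟩
  have hle : ∀ a, φ a ≤ w (G a) := fun a => le_csSup (hbdd _) ⟨a, rfl, rfl⟩
  have hw0 : ∀ x, 0 ≤ w x := fun x => Real.sSup_nonneg (by rintro _ ⟨a, -, rfl⟩; exact h0 a)
  have hw1 : ∀ x, w x ≤ 1 := fun x => Real.sSup_le (by rintro _ ⟨a, -, rfl⟩; exact h1 a) zero_le_one
  have hatt : ∀ x, 0 < w x → ∃ a, G a = x ∧ φ a = w x := by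
    intro x hx
    have hne : (G ⁻¹' {x}).Nonempty := by
      by_contra hcon
      rw [Set.not_nonempty_iff_eq_empty] at hcon
      rw [hw] at hx
      simp [hcon] at hx
    have hc : IsCompact (G ⁻¹' {x}) := (isClosed_singleton.preimage hG).isCompact
    obtain ⟨a, ha, hmax⟩ := hc.exists_isMaxOn hne hφ.continuousOn
    refine ⟨a, ha, le_antisymm (by have := hle a; rwa [show G a = x from ha] at this) ?_⟩
    refine csSup_le (hne.image φ) ?_
    rintro _ ⟨b, hb, rfl⟩
    exact hmax hb
  refine ⟨⟨w, hw0, hw1, ?_, ?_, ?_⟩, hle, hatt⟩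
  · rw [upperSemicontinuous_iff_isClosed_preimage]
    intro c
    rcases le_or_gt c 0 with hc | hc
    · have : w ⁻¹' Set.Ici c = Set.univ := by
        ext x; simp only [Set.mem_preimage, Set.mem_Ici, Set.mem_univ, iff_true]
        exact hc.trans (hw0 x)
      rw [this]; exact isClosed_univ
    · have : w ⁻¹' Set.Ici c = G '' {a | c ≤ φ a} := by
        ext x
        constructor
        · intro hx
          have hx' : c ≤ w x := hx
          obtain ⟨a, ha1, ha2⟩ := hatt x (hc.trans_le hx')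
          exact ⟨a, by change c ≤ φ a; rw [ha2]; exact hx', ha1⟩
        · rintro ⟨a, ha, rfl⟩
          exact le_trans ha (hle a)
      rw [this]
      exact ((isClosed_le continuous_const hφ).isCompact.image hG).isClosed
  · obtain ⟨a, ha⟩ := hn
    exact ⟨G a, le_antisymm (hw1 _) (by rw [← ha]; exact hle a)⟩
  · refine (isCompact_range hG).of_isClosed_subset isClosed_closure ?_
    refine closure_minimal ?_ (isCompact_range hG).isClosed
    intro x hx
    obtain ⟨a, ha, -⟩ := hatt x hx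
    exact ⟨a, ha⟩

/-! ## Binary expansions -/

/-- the integer given by the first `k` bits -/
def val (β : ℕ → Bool) : ℕ → ℕ
  | 0 => 0
  | k + 1 => 2 * val β k + (if β k then 1 else 0)

lemma val_lt (β : ℕ → Bool) (k : ℕ) : val β k < 2 ^ k := by
  induction k with
  | zero => simp [val]
  | succ k ih =>
    rw [val, pow_succ]
    split_ifs <;> omega

lemma val_congr {β β' : ℕ → Bool} {k : ℕ} (h : ∀ i < k, β i = β' i) : val β k = val β' k := by
  induction k with
  | zero => rfl
  | succ k ih =>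
    rw [val, val, ih fun i hi => h i (by omega), h k (by omega)]

lemma exists_val {k i : ℕ} (hi : i < 2 ^ k) : ∃ β, val β k = i := by
  induction k generalizing i with
  | zero =>
    refine ⟨fun _ => false, ?_⟩
    simp at hi
    rw [hi]; rfl
  | succ k ih =>
    rw [pow_succ] at hi
    obtain ⟨β, hβ⟩ := ih (i := i / 2) (by omega)
    refine ⟨Function.update β k (decide (i % 2 = 1)), ?_⟩
    rw [val, val_congr (β' := β) (k := k) (fun j hj => Function.update_of_ne (by omega) _ _), hβ]
    rw [Function.update_self]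
    rcases Nat.mod_two_eq_zero_or_one i with h | h
    · simp [h]; omega
    · simp [h]; omega

/-- lower approximations increase -/
lemma lo_mono (β : ℕ → Bool) : Monotone fun k => (val β k : ℝ) / 2 ^ k := by
  refine monotone_nat_of_le_succ fun k => ?_
  rw [div_le_div_iff₀ (by positivity) (by positivity), pow_succ, val]
  push_cast
  have : (0 : ℝ) ≤ (if β k then 1 else 0) := by split_ifs <;> norm_num
  have h2 : (0 : ℝ) < 2 ^ k := by positivity
  nlinarith

lemma hi_anti (β : ℕ → Bool) : Antitone fun k => ((val β k : ℝ) + 1) / 2 ^ k := by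
  refine antitone_nat_of_succ_le fun k => ?_
  rw [div_le_div_iff₀ (by positivity) (by positivity), pow_succ, val]
  push_cast
  have : (if β k then (1 : ℝ) else 0) ≤ 1 := by split_ifs <;> norm_num
  have h2 : (0 : ℝ) < 2 ^ k := by positivity
  nlinarith

lemma lo_le_hi (β : ℕ → Bool) (m k : ℕ) : (val β m : ℝ) / 2 ^ m ≤ ((val β k : ℝ) + 1) / 2 ^ k := by
  rcases le_total m k with h | h
  · refine (lo_mono β h).trans ?_
    change (val β k : ℝ) / 2 ^ k ≤ ((val β k : ℝ) + 1) / 2 ^ k
    gcongr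
    linarith
  · refine le_trans ?_ (hi_anti β h)
    change (val β m : ℝ) / 2 ^ m ≤ ((val β m : ℝ) + 1) / 2 ^ m
    gcongr
    linarith

/-- the height of a binary sequence -/
noncomputable def ht (β : ℕ → Bool) : ℝ := ⨆ k, (val β k : ℝ) / 2 ^ k

lemma lo_le_ht (β : ℕ → Bool) (k : ℕ) : (val β k : ℝ) / 2 ^ k ≤ ht β :=
  le_ciSup (f := fun k => (val β k : ℝ) / 2 ^ k) ⟨_, by
    rintro _ ⟨m, rfl⟩
    exact lo_le_hi β m 0⟩ k

lemma ht_le_hi (β : ℕ → Bool) (k : ℕ) : ht β ≤ ((val β k : ℝ) + 1) / 2 ^ k :=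
  ciSup_le fun m => lo_le_hi β m k

lemma ht_nonneg (β : ℕ → Bool) : 0 ≤ ht β := by
  have := lo_le_ht β 0
  simpa [val] using this

lemma ht_le_one (β : ℕ → Bool) : ht β ≤ 1 := by
  have := ht_le_hi β 0
  simpa [val] using this

lemma ht_ones : ht (fun _ => true) = 1 := by
  have hval : ∀ k, val (fun _ => true) k + 1 = 2 ^ k := by
    intro k
    induction k with
    | zero => simp [val]
    | succ k ih => rw [val, pow_succ]; simp; omega
  refine le_antisymm (ht_le_one _) ?_
  refine le_of_forall_pos_le_add fun ε hε => ?_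
  obtain ⟨k, hk⟩ := exists_pow_lt_of_lt_one hε (by norm_num : (1 / 2 : ℝ) < 1)
  have h1 := lo_le_ht (fun _ => true) k
  have h2 : ((val (fun _ => true) k : ℝ) + 1) = 2 ^ k := by exact_mod_cast hval k
  have h3 : (val (fun _ => true) k : ℝ) / 2 ^ k = 1 - (1 / 2) ^ k := by
    rw [one_div, inv_pow, eq_sub_iff_add_eq, div_add' _ _ _ (by positivity),
      inv_mul_cancel₀ (by positivity), h2, div_self (by positivity)]
  rw [h3] at h1
  linarith

lemma continuous_val (k : ℕ) : Continuous fun β : ℕ → Bool => val β k := by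
  induction k with
  | zero => exact continuous_const
  | succ k ih =>
    have h1 : Continuous fun β : ℕ → Bool => (val β k, β k) := ih.prodMk (continuous_apply k)
    have h2 : Continuous fun q : ℕ × Bool => 2 * q.1 + (if q.2 then 1 else 0) :=
      continuous_of_discreteTopology
    exact h2.comp h1

lemma continuous_ht : Continuous ht := by
  rw [continuous_iff_continuousAt]
  intro β
  rw [ContinuousAt, Metric.tendsto_nhds]
  intro ε hε
  obtain ⟨k, hk⟩ := exists_pow_lt_of_lt_one hε (by norm_num : (1 / 2 : ℝ) < 1)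
  have h1 : ∀ᶠ β' in 𝓝 β, val β' k = val β k := by
    exact (continuous_val k).continuousAt ((isOpen_discrete {v | v = val β k}).mem_nhds rfl)
  filter_upwards [h1] with β' h
  have a1 := lo_le_ht β k
  have a2 := ht_le_hi β k
  have a3 := lo_le_ht β' k
  have a4 := ht_le_hi β' k
  rw [h] at a3 a4
  have a5 : ((val β k : ℝ) + 1) / 2 ^ k = (val β k : ℝ) / 2 ^ k + (1 / 2) ^ k := by
    rw [add_div, one_div_pow]
  rw [Real.dist_eq, abs_lt]
  constructor <;> linarith

/-! ## Symbols and tails -/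

/-- the alphabet -/
inductive Sy : Type
  | star (c : Bool) : Sy
  | T (ψ : ℕ) (c : Bool) : Sy
  | P (ψ k i : ℕ) (c : Bool) : Sy

instance : TopologicalSpace Sy := ⊥
instance : DiscreteTopology Sy := ⟨rfl⟩

/-- the family active at time `n` -/
def act (n : ℕ) : ℕ := (Nat.unpair (Nat.sqrt n)).1

/-- the tail symbol as a function of discrete data -/
def tlf (ψ : ℕ) (c : Bool) (n : ℕ) (v : ℕ) (b : Bool) : Sy :=
  if act n = ψ then
    (if b = true ∧ v + 2 < 2 ^ (Nat.sqrt n) then Sy.P ψ (Nat.sqrt n) (v + 2) (!c)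
      else Sy.P ψ (Nat.sqrt n) v c)
  else Sy.T ψ c

/-- the exceptional bit -/
noncomputable def ex (e : OnePoint ℕ) (k : ℕ) : Bool := ({(k : OnePoint ℕ)} : Set _).boolIndicator e

lemma ex_iff {e : OnePoint ℕ} {k : ℕ} : ex e k = true ↔ e = (k : OnePoint ℕ) := by
  unfold ex
  rw [← Set.mem_iff_boolIndicator]
  rfl

/-- the tail symbol at time `n` of the point with index `(β, e)` and colour `c` of family `ψ` -/
noncomputable def tl (ψ : ℕ) (c : Bool) (β : ℕ → Bool) (e : OnePoint ℕ) (n : ℕ) : Sy :=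
  tlf ψ c n (val β (Nat.sqrt n)) (ex e (Nat.sqrt n))

lemma continuous_ex (k : ℕ) : Continuous fun e : OnePoint ℕ => ex e k := by
  unfold ex
  rw [continuous_boolIndicator_iff_isClopen]
  refine ⟨isClosed_singleton, ?_⟩
  have h1 : IsOpen ((fun n : ℕ => (n : OnePoint ℕ)) '' {k}) :=
    OnePoint.isOpenEmbedding_coe.isOpenMap _ (isOpen_discrete _)
  simpa using h1

lemma continuous_tl (ψ : ℕ) (c : Bool) (n : ℕ) :
    Continuous fun a : (ℕ → Bool) × OnePoint ℕ => tl ψ c a.1 a.2 n := by
  have h1 : Continuous fun a : (ℕ → Bool) × OnePoint ℕ =>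
      (val a.1 (Nat.sqrt n), ex a.2 (Nat.sqrt n)) :=
    ((continuous_val _).comp continuous_fst).prodMk ((continuous_ex _).comp continuous_snd)
  have h2 : Continuous fun q : ℕ × Bool => tlf ψ c n q.1 q.2 := continuous_of_discreteTopology
  exact h2.comp h1

lemma tl_ne_star (ψ : ℕ) (c : Bool) (β : ℕ → Bool) (e : OnePoint ℕ) (n : ℕ) (c' : Bool) :
    tl ψ c β e n ≠ Sy.star c' := by
  unfold tl tlf
  split_ifs <;> simp

/-! ## The space -/

/-- sequences of symbols -/
def Z : Type := ℕ → Sy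

noncomputable instance : MetricSpace Z := PiNat.metricSpace (E := fun _ => Sy)

lemma distZ_le_iff (x y : Z) (m : ℕ) : dist x y ≤ (1 / 2) ^ m ↔ ∀ i < m, x i = y i := by
  have := PiNat.mem_cylinder_iff_dist_le (E := fun _ => Sy) (x := y) (y := x) (n := m)
  exact this.symm.trans PiNat.mem_cylinder_iff

lemma distZ_lt_one {x y : Z} (h : dist x y < 1) : x 0 = y 0 := by
  have h1 : dist x y < (1 / 2) ^ 0 := by simpa using h
  exact PiNat.apply_eq_of_dist_lt (E := fun _ => Sy) h1 le_rfl

/-- starred points of colour `c` -/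
def SP (c : Bool) (z : ℕ → Sy) : Prop :=
  z 0 = Sy.star c ∧ (∀ n, 1 ≤ n → ∃ N β e, z n = tl N c β e n) ∧
    ∃ N β e, 1 ≤ N ∧ ∀ n, N ≤ n → z n = tl N c β e n

/-- free points -/
def Free (z : ℕ → Sy) : Prop :=
  (∀ n c, z n ≠ Sy.star c) ∧ ∃ N m ψ c β e, ∀ n, N ≤ n → z n = tl ψ c β e (n + m)

def XS : Set Z := {z | SP true z ∨ SP false z ∨ Free z}

/-- the space -/
def X : Type := XS

noncomputable instance : MetricSpace X := inferInstanceAs (MetricSpace XS)

lemma dist_le_iff (x y : X) (m : ℕ) : dist x y ≤ (1 / 2) ^ m ↔ ∀ i < m, x.1 i = y.1 i :=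
  distZ_le_iff x.1 y.1 m

lemma dist_lt_one {x y : X} (h : dist x y < 1) : x.1 0 = y.1 0 := distZ_lt_one h

lemma continuous_coord (i : ℕ) : Continuous fun x : X => x.1 i :=
  (continuous_apply i : Continuous fun x : ℕ → Sy => x i).comp
    (continuous_subtype_val : Continuous fun x : XS => (x : Z))

lemma continuous_to_X {A : Type} [TopologicalSpace A] {G : A → X}
    (h : ∀ i, Continuous fun a => (G a).1 i) : Continuous G :=
  Continuous.subtype_mk (p := fun z : Z => z ∈ XS) (f := fun a => (G a).1) (continuous_pi h) _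

lemma shift_mem {z : ℕ → Sy} (hz : z ∈ XS) : (fun n => z (n + 1) : Z) ∈ XS := by
  right; right
  rcases hz with h | h | h
  · obtain ⟨-, h1, N, β, e, -, h2⟩ := h
    refine ⟨fun n c => ?_, N, 1, N, true, β, e, fun n hn => h2 (n + 1) (by omega)⟩
    obtain ⟨N', β', e', h3⟩ := h1 (n + 1) (by omega)
    change z (n + 1) ≠ _
    rw [h3]
    exact tl_ne_star _ _ _ _ _ _
  · obtain ⟨-, h1, N, β, e, -, h2⟩ := h
    refine ⟨fun n c => ?_, N, 1, N, false, β, e, fun n hn => h2 (n + 1) (by omega)⟩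
    obtain ⟨N', β', e', h3⟩ := h1 (n + 1) (by omega)
    change z (n + 1) ≠ _
    rw [h3]
    exact tl_ne_star _ _ _ _ _ _
  · obtain ⟨h1, N, m, ψ, c, β, e, h2⟩ := h
    refine ⟨fun n c => h1 (n + 1) c, N, m + 1, ψ, c, β, e, fun n hn => ?_⟩
    change z (n + 1) = _
    rw [h2 (n + 1) (by omega)]
    congr 1
    ring

/-- the shift -/
def f (x : X) : X := ⟨fun n => x.1 (n + 1), shift_mem x.2⟩

lemma continuous_f : Continuous f := continuous_to_X fun i => continuous_coord (i + 1)

lemma iter_apply (x : X) (n i : ℕ) : (f^[n] x).1 i = x.1 (n + i) := by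
  induction n generalizing i with
  | zero => simp
  | succ n ih =>
    rw [Function.iterate_succ_apply']
    change (f^[n] x).1 (i + 1) = _
    rw [ih]
    exact congrArg x.1 (by omega)

open Classical in
/-- the colour of a point -/
noncomputable def col (z : ℕ → Sy) : Bool := if z 0 = Sy.star false then false else true

/-- replace the tail from time `N` on -/
noncomputable def glue (z : ℕ → Sy) (N : ℕ) (β : ℕ → Bool) (e : OnePoint ℕ) : Z :=
  fun n => if n < N then z n else tl N (col z) β e n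

lemma glue_lt {z : ℕ → Sy} {N : ℕ} {β : ℕ → Bool} {e : OnePoint ℕ} {n : ℕ} (h : n < N) :
    glue z N β e n = z n := if_pos h

lemma glue_ge {z : ℕ → Sy} {N : ℕ} {β : ℕ → Bool} {e : OnePoint ℕ} {n : ℕ} (h : N ≤ n) :
    glue z N β e n = tl N (col z) β e n := if_neg (by omega)

lemma glue_mem {z : ℕ → Sy} (hz : z ∈ XS) {N : ℕ} (hN : 1 ≤ N) (β : ℕ → Bool) (e : OnePoint ℕ) :
    glue z N β e ∈ XS := by
  have key : ∀ c, SP c z → col z = c → SP c (glue z N β e) := by
    rintro c ⟨h0, h1, -⟩ hc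
    refine ⟨by rw [glue_lt (by omega)]; exact h0, fun n hn => ?_, N, β, e, hN, fun n hn => by
      rw [glue_ge hn, hc]⟩
    by_cases hnN : n < N
    · rw [glue_lt hnN]; exact h1 n hn
    · rw [glue_ge (by omega), hc]; exact ⟨N, β, e, rfl⟩
  rcases hz with h | h | h
  · left
    refine key true h ?_
    unfold col
    rw [h.1, if_neg (by simp)]
  · right; left
    refine key false h ?_
    unfold col
    rw [h.1, if_pos rfl]
  · right; right
    refine ⟨fun n c => ?_, N, 0, N, col z, β, e, fun n hn => by rw [glue_ge hn]; rfl⟩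
    by_cases hnN : n < N
    · rw [glue_lt hnN]; exact h.1 n c
    · rw [glue_ge (by omega)]; exact tl_ne_star _ _ _ _ _ _

/-! ## Approximating fuzzy sets -/

/-- Finitely many base points. -/
lemma exists_bases (u : Fuzzy X) (N : ℕ) : ∃ B : Set X, B.Finite ∧
    ∀ x, 0 < u.u x → ∃ b ∈ B, (∀ i < N, b.1 i = x.1 i) ∧ u.u x ≤ u.u b := by
  set Kc := closure {x | 0 < u.u x} with hKc
  let π : X → (Fin N → Sy) := fun x i => x.1 i
  have hπ : Continuous π := continuous_pi fun i => continuous_coord i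
  have hfin : (π '' Kc).Finite := isCompact_iff_finite.1 (u.cpt.image hπ)
  have hmax : ∀ w ∈ π '' Kc, ∃ b, π b = w ∧ ∀ x ∈ Kc, π x = w → u.u x ≤ u.u b := by
    rintro w ⟨x₀, hx₀, rfl⟩
    have hc : IsCompact (Kc ∩ π ⁻¹' {π x₀}) :=
      u.cpt.inter_right (isClosed_singleton.preimage hπ)
    have hne : (Kc ∩ π ⁻¹' {π x₀}).Nonempty := ⟨x₀, hx₀, rfl⟩
    obtain ⟨b, hb, hmax⟩ := UpperSemicontinuousOn.exists_isMaxOn hne hc
      (u.usc.upperSemicontinuousOn _)
    exact ⟨b, hb.2, fun x hx1 hx2 => hmax ⟨hx1, hx2⟩⟩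
  have : Nonempty X := ⟨u.normal.choose⟩
  choose! m hm1 hm2 using hmax
  have hBf : (m '' (π '' Kc)).Finite := hfin.image m
  refine ⟨_, hBf, fun x hx => ?_⟩
  have hxK : x ∈ Kc := subset_closure hx
  have hw : π x ∈ π '' Kc := ⟨x, hxK, rfl⟩
  refine ⟨m (π x), ⟨_, hw, rfl⟩, fun i hi => ?_, hm2 _ hw x hxK rfl⟩
  exact congrFun (hm1 _ hw) ⟨i, hi⟩

lemma approx (u : Fuzzy X) {N : ℕ} (hN : 1 ≤ N) : ∃ u' : Fuzzy X, dE u.u u'.u ≤ (1 / 2) ^ N ∧
    (∀ x, 0 < u'.u x → ∃ c β e, (∀ n, N ≤ n → x.1 n = tl N c β e n) ∧ u'.u x ≤ ht β) ∧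
    ∃ c, ∀ β e, ∃ x : X, (∀ n, N ≤ n → x.1 n = tl N c β e n) ∧ ht β ≤ u'.u x := by
  obtain ⟨B, hBfin, hB⟩ := exists_bases u N
  have : Finite B := hBfin
  let A := B × ((ℕ → Bool) × OnePoint ℕ)
  let G : A → X := fun a => ⟨glue a.1.1.1 N a.2.1 a.2.2, glue_mem a.1.1.2 hN _ _⟩
  have hG : Continuous G := by
    refine continuous_to_X fun i => ?_
    refine continuous_prod_of_discrete_left.2 fun b => ?_
    by_cases hi : i < N
    · have : (fun a : (ℕ → Bool) × OnePoint ℕ => (G (b, a)).1 i) = fun _ => b.1.1 i := by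
        funext a; exact glue_lt hi
      rw [this]
      exact continuous_const
    · have : (fun a : (ℕ → Bool) × OnePoint ℕ => (G (b, a)).1 i) =
          fun a => tl N (col b.1.1) a.1 a.2 i := by
        funext a; exact glue_ge (not_lt.1 hi)
      rw [this]
      exact continuous_tl _ _ _
  let φ : A → ℝ := fun a => min (ht a.2.1) (u.u a.1.1)
  have hφ : Continuous φ := by
    have h1 : Continuous fun b : B => u.u b.1 := continuous_of_discreteTopology
    exact (continuous_ht.comp (continuous_fst.comp continuous_snd)).min (h1.comp continuous_fst)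
  obtain ⟨x₁, hx₁⟩ := u.normal
  obtain ⟨b₁, hb₁, -, hb₁'⟩ := hB x₁ (by rw [hx₁]; exact one_pos)
  have hub₁ : u.u b₁ = 1 := le_antisymm (u.le_one _) (by rw [← hx₁]; exact hb₁')
  obtain ⟨u', hu1, hu2⟩ := push G hG φ hφ (fun a => le_min (ht_nonneg _) (u.nonneg _))
    (fun a => (min_le_left _ _).trans (ht_le_one _))
    ⟨(⟨b₁, hb₁⟩, (fun _ => true, OnePoint.infty)), by
      change min (ht fun _ => true) (u.u b₁) = 1
      rw [ht_ones, hub₁, min_self]⟩
  refine ⟨u', ?_, ?_, ?_⟩
  · refine Metric.hausdorffDist_le_of_mem_dist (by positivity) ?_ ?_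
    · rintro ⟨x, s⟩ ⟨hs0, hs1, hs2⟩
      simp only at hs0 hs1 hs2
      rcases hs0.eq_or_lt with h0 | h0
      · refine ⟨(x, s), ⟨hs0, hs1, ?_⟩, by rw [dist_self]; positivity⟩
        change s ≤ u'.u x
        rw [← h0]; exact u'.nonneg x
      · obtain ⟨b, hb, hb1, hb2⟩ := hB x (h0.trans_le hs2)
        let a : A := (⟨b, hb⟩, (fun _ => true, OnePoint.infty))
        have ha : s ≤ u'.u (G a) := by
          refine le_trans ?_ (hu1 a)
          change s ≤ min (ht fun _ => true) (u.u b)
          rw [ht_ones]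
          exact le_min hs1 (hs2.trans hb2)
        refine ⟨(G a, s), ⟨hs0, hs1, ha⟩, ?_⟩
        rw [Prod.dist_eq, dist_self, max_eq_left dist_nonneg]
        rw [dist_le_iff]
        intro i hi
        rw [← hb1 i hi]
        exact (glue_lt hi).symm
    · rintro ⟨x, s⟩ ⟨hs0, hs1, hs2⟩
      simp only at hs0 hs1 hs2
      rcases hs0.eq_or_lt with h0 | h0
      · refine ⟨(x, s), ⟨hs0, hs1, ?_⟩, by rw [dist_self]; positivity⟩
        change s ≤ u.u x
        rw [← h0]; exact u.nonneg x
      · obtain ⟨a, ha1, ha2⟩ := hu2 x (h0.trans_le hs2)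
        have h1 : s ≤ u.u a.1.1 := by
          rw [← ha2] at hs2
          exact hs2.trans (min_le_right _ _)
        refine ⟨(a.1.1, s), ⟨hs0, hs1, h1⟩, ?_⟩
        rw [Prod.dist_eq, dist_self, max_eq_left dist_nonneg]
        rw [dist_le_iff, ← ha1]
        intro i hi
        exact glue_lt hi
  · intro x hx
    obtain ⟨a, ha1, ha2⟩ := hu2 x hx
    refine ⟨col a.1.1.1, a.2.1, a.2.2, fun n hn => ?_, ?_⟩
    · rw [← ha1]; exact glue_ge hn
    · rw [← ha2]; exact min_le_left _ _
  · refine ⟨col b₁.1, fun β e => ⟨G (⟨b₁, hb₁⟩, (β, e)), fun n hn => glue_ge hn, ?_⟩⟩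
    refine le_trans ?_ (hu1 _)
    change ht β ≤ min (ht β) (u.u b₁)
    rw [hub₁]
    exact le_min le_rfl (ht_le_one β)

/-! ## Proximality of the approximations -/

/-- one inclusion at the beginning of the window `[j², (j+1)²)` -/
lemma one_side {u' v' : Fuzzy X} {N : ℕ}
    (hu : ∀ x, 0 < u'.u x → ∃ c β e, (∀ n, N ≤ n → x.1 n = tl N c β e n) ∧ u'.u x ≤ ht β)
    (hv : ∃ c, ∀ β e, ∃ x : X, (∀ n, N ≤ n → x.1 n = tl N c β e n) ∧ ht β ≤ v'.u x)
    {j : ℕ} (hj : (Nat.unpair j).1 = N) (hjN : N ≤ j * j) :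
    ∀ p ∈ endo ((zadeh f)^[j * j] u'.u), ∃ q ∈ endo ((zadeh f)^[j * j] v'.u),
      dist p q ≤ 4 * (1 / 2) ^ j := by
  rintro ⟨y, s⟩ ⟨hs0, hs1, hs2⟩
  simp only at hs0 hs1 hs2
  have hv0 := (iter_bounds f v'.u v'.nonneg v'.le_one (j * j)).1
  have hpow : (1 / 2 : ℝ) ^ j = 1 / 2 ^ j := by rw [one_div_pow]
  have h2j : (0 : ℝ) < 2 ^ j := by positivity
  rcases le_or_gt s (4 * (1 / 2) ^ j) with hs | hs
  · refine ⟨(y, 0), ⟨le_rfl, zero_le_one, hv0 y⟩, ?_⟩
    rw [Prod.dist_eq, dist_self, max_eq_right dist_nonneg, Real.dist_eq, sub_zero,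
      abs_of_nonneg hs0]
    exact hs
  · -- a point of the family above `y`
    have hpos : (0 : ℝ) < (1 / 2) ^ j := by positivity
    obtain ⟨x, hx1, hx2⟩ := lt_iter f u'.u (j * j) (s := s - (1 / 2) ^ j) (by linarith) y
      (by linarith)
    obtain ⟨c, β, e, hx3, hx4⟩ := hu x (by linarith)
    have hsqrt : ∀ t ≤ 2 * j, Nat.sqrt (j * j + t) = j := fun t ht => Nat.sqrt_add_eq j (by omega)
    have hact : ∀ t ≤ 2 * j, act (j * j + t) = N := fun t ht => by
      unfold act; rw [hsqrt t ht, hj]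
    -- the symbol shown in the window
    obtain ⟨i, c', hi1, hi2, hshow⟩ : ∃ (i : ℕ) (c' : Bool), i < 2 ^ j ∧ ht β ≤ ((i : ℝ) + 1) / 2 ^ j ∧
        ∀ t ≤ 2 * j, x.1 (j * j + t) = Sy.P N j i c' := by
      by_cases hex : ex e j = true ∧ val β j + 2 < 2 ^ j
      · refine ⟨val β j + 2, !c, hex.2, ?_, fun t ht => ?_⟩
        · refine (ht_le_hi β j).trans ?_
          push_cast
          gcongr
          linarith
        · rw [hx3 _ (by omega)]
          unfold tl tlf
          rw [if_pos (hact t ht), hsqrt t ht, if_pos hex]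
      · refine ⟨val β j, c, val_lt β j, ht_le_hi β j, fun t ht => ?_⟩
        rw [hx3 _ (by omega)]
        unfold tl tlf
        rw [if_pos (hact t ht), hsqrt t ht, if_neg hex]
    have hsi : s < ((i : ℝ) + 2) / 2 ^ j := by
      have : ((i : ℝ) + 2) / 2 ^ j = ((i : ℝ) + 1) / 2 ^ j + (1 / 2) ^ j := by
        rw [hpow]; ring
      rw [this]
      linarith
    have hi2 : 2 < i := by
      rw [hpow, mul_one_div] at hs
      have h1 : (4 : ℝ) / 2 ^ j < ((i : ℝ) + 2) / 2 ^ j := hs.trans hsi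
      rw [div_lt_div_iff_of_pos_right h2j] at h1
      have : (2 : ℝ) < i := by linarith
      exact_mod_cast this
    obtain ⟨cv, hcv⟩ := hv
    -- the partner
    obtain ⟨x', hx'1, hx'2⟩ : ∃ x' : X, (∀ t ≤ 2 * j, x'.1 (j * j + t) = Sy.P N j i c') ∧
        ((i : ℝ) - 2) / 2 ^ j ≤ v'.u x' := by
      by_cases hc : c' = cv
      · obtain ⟨β', hβ'⟩ := exists_val hi1
        obtain ⟨x', h1, h2⟩ := hcv β' OnePoint.infty
        refine ⟨x', fun t ht => ?_, ?_⟩
        · rw [h1 _ (by omega)]
          have hex : ¬ (ex OnePoint.infty j = true ∧ val β' j + 2 < 2 ^ j) := by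
            rintro ⟨h3, -⟩
            rw [ex_iff] at h3
            exact OnePoint.infty_ne_coe j h3
          unfold tl tlf
          rw [if_pos (hact t ht), hsqrt t ht, if_neg hex, hβ', hc]
        · have h3 := lo_le_ht β' j
          rw [hβ'] at h3
          refine le_trans ?_ (h3.trans h2)
          gcongr
          linarith
      · obtain ⟨β', hβ'⟩ := exists_val (k := j) (i := i - 2) (by omega)
        obtain ⟨x', h1, h2⟩ := hcv β' (j : OnePoint ℕ)
        refine ⟨x', fun t ht => ?_, ?_⟩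
        · rw [h1 _ (by omega)]
          have hex : ex (j : OnePoint ℕ) j = true ∧ val β' j + 2 < 2 ^ j := by
            refine ⟨ex_iff.2 rfl, ?_⟩
            rw [hβ']; omega
          have hc' : (!cv) = c' := by
            revert hc; cases c' <;> cases cv <;> simp
          unfold tl tlf
          rw [if_pos (hact t ht), hsqrt t ht, if_pos hex, hβ', hc']
          congr 1
          omega
        · have h3 := lo_le_ht β' j
          rw [hβ'] at h3
          refine le_trans ?_ (h3.trans h2)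
          rw [Nat.cast_sub (by omega)]
          push_cast
          exact le_rfl
    refine ⟨(f^[j * j] x', s - 4 * (1 / 2) ^ j), ⟨?_, ?_, ?_⟩, ?_⟩
    · change 0 ≤ s - 4 * (1 / 2) ^ j
      linarith
    · change s - 4 * (1 / 2) ^ j ≤ 1
      linarith
    · change s - 4 * (1 / 2) ^ j ≤ (zadeh f)^[j * j] v'.u (f^[j * j] x')
      refine le_trans ?_ (le_iter f v'.u v'.nonneg v'.le_one (j * j) x')
      refine le_trans ?_ hx'2
      have : ((i : ℝ) - 2) / 2 ^ j = ((i : ℝ) + 2) / 2 ^ j - 4 * (1 / 2) ^ j := by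
        rw [hpow]; ring
      rw [this]
      linarith
    · rw [Prod.dist_eq]
      refine max_le ?_ ?_
      · change dist y (f^[j * j] x') ≤ _
        have h1 : dist y (f^[j * j] x') ≤ (1 / 2) ^ j := by
          rw [dist_le_iff, ← hx1]
          intro t ht
          rw [iter_apply, iter_apply, hshow t (by omega), hx'1 t (by omega)]
        linarith
      · change dist s (s - 4 * (1 / 2) ^ j) ≤ _
        rw [Real.dist_eq, sub_sub_cancel, abs_of_pos (by positivity)]

theorem denseProximalFuzzy : DenseProximalFuzzy f := by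
  intro u v ε hε
  obtain ⟨N', hN'⟩ := exists_pow_lt_of_lt_one hε (by norm_num : (1 / 2 : ℝ) < 1)
  set N := N' + 1 with hN
  have hNε : (1 / 2 : ℝ) ^ N < ε := by
    refine lt_of_le_of_lt ?_ hN'
    exact pow_le_pow_of_le_one (by norm_num) (by norm_num) (by omega)
  obtain ⟨u', hu1, hu2, hu3⟩ := approx u (N := N) (by omega)
  obtain ⟨v', hv1, hv2, hv3⟩ := approx v (N := N) (by omega)
  refine ⟨u', v', hu1.trans_lt hNε, hv1.trans_lt hNε, fun δ hδ => ?_⟩
  rw [frequently_atTop]
  intro M
  obtain ⟨l, hl⟩ := exists_pow_lt_of_lt_one (by positivity : 0 < δ / 4)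
    (by norm_num : (1 / 2 : ℝ) < 1)
  set j := Nat.pair N (l + M + N) with hj
  have hjl : l + M + N ≤ j := Nat.right_le_pair _ _
  have hjj : j ≤ j * j := Nat.le_mul_self j
  have hun : (Nat.unpair j).1 = N := by rw [hj, Nat.unpair_pair]
  refine ⟨j * j, by omega, ?_⟩
  have h1 : dE ((zadeh f)^[j * j] u'.u) ((zadeh f)^[j * j] v'.u) ≤ 4 * (1 / 2) ^ j := by
    refine Metric.hausdorffDist_le_of_mem_dist (by positivity) ?_ ?_
    · exact one_side hu2 hv3 hun (by omega)
    · exact one_side hv2 hu3 hun (by omega)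
  refine lt_of_le_of_lt h1 ?_
  have h2 : (1 / 2 : ℝ) ^ j ≤ (1 / 2) ^ l :=
    pow_le_pow_of_le_one (by norm_num) (by norm_num) (by omega)
  linarith

/-! ## The hyperextension has no dense proximal relation -/

/-- the base points -/
noncomputable def base (c : Bool) : X :=
  ⟨fun n => if n = 0 then Sy.star c else tl 1 c (fun _ => false) OnePoint.infty n, by
    have h : SP c (fun n => if n = 0 then Sy.star c else tl 1 c (fun _ => false) OnePoint.infty n) := by
      refine ⟨rfl, fun n hn => ⟨1, fun _ => false, OnePoint.infty, if_neg (by omega)⟩, 1,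
        fun _ => false, OnePoint.infty, le_rfl, fun n hn => if_neg (by omega)⟩
    cases c
    · exact Or.inr (Or.inl h)
    · exact Or.inl h⟩

lemma SP_of_near {c : Bool} {x : X} (h : x.1 0 = Sy.star c) : SP c x.1 := by
  rcases x.2 with h1 | h1 | h1
  · have := h1.1
    rw [h] at this
    simp only [Sy.star.injEq] at this
    rw [this]; exact h1
  · have := h1.1
    rw [h] at this
    simp only [Sy.star.injEq] at this
    rw [this]; exact h1
  · exact absurd h (h1.1 0 c)

/-- if a tail symbol of colour `c` of the family `N` is a tail symbol of the other colour, then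
the family `N` is active, and one of the two points is exceptional -/
lemma tl_match {N N' : ℕ} {c : Bool} {β β' : ℕ → Bool} {e e' : OnePoint ℕ} {n : ℕ}
    (h : tl N c β e n = tl N' (!c) β' e' n) : N = N' ∧ act n = N := by
  unfold tl tlf at h
  by_cases h1 : act n = N <;> by_cases h2 : act n = N'
  · exact ⟨h1.symm.trans h2, h1⟩
  · exfalso
    rw [if_pos h1, if_neg h2] at h
    split_ifs at h
  · exfalso
    rw [if_neg h1, if_pos h2] at h
    split_ifs at h
  · exfalso
    rw [if_neg h1, if_neg h2] at h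
    simp only [Sy.T.injEq] at h
    cases c <;> simp at h

lemma exceptional_lower {N : ℕ} {c : Bool} {β β' : ℕ → Bool} {e e' : OnePoint ℕ} {n : ℕ}
    (h : tl N c β e n = tl N (!c) β' e' n) (he : e ≠ ((Nat.sqrt n : ℕ) : OnePoint ℕ)) :
    ht β' < ht β := by
  obtain ⟨-, hact⟩ := tl_match h
  unfold tl tlf at h
  have h1 : ¬ (ex e (Nat.sqrt n) = true ∧ val β (Nat.sqrt n) + 2 < 2 ^ Nat.sqrt n) := by
    rintro ⟨h2, -⟩
    exact he (ex_iff.1 h2)
  rw [if_pos hact, if_pos hact, if_neg h1] at h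
  split_ifs at h with h2
  · simp only [Sy.P.injEq, true_and] at h
    have h3 := lo_le_ht β (Nat.sqrt n)
    have h4 := ht_le_hi β' (Nat.sqrt n)
    rw [h.1] at h3
    refine h4.trans_lt (lt_of_lt_of_le ?_ h3)
    push_cast
    gcongr
    norm_num
  · simp only [Sy.P.injEq, true_and] at h
    exfalso
    have := h.2
    cases c <;> simp at this

lemma map_iter (K : NonemptyCompacts X) (n : ℕ) :
    (((NonemptyCompacts.map f continuous_f)^[n] K : NonemptyCompacts X) : Set X) = f^[n] '' K := by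
  induction n with
  | zero => simp
  | succ n ih =>
    rw [Function.iterate_succ_apply', Function.iterate_succ']
    rw [Set.image_comp, ← ih]
    rfl

lemma exists_near {K L : NonemptyCompacts X} (h : dist K L < 1) {x : X} (hx : x ∈ (K : Set X)) :
    ∃ y ∈ (L : Set X), dist x y < 1 := by
  rw [Metric.NonemptyCompacts.dist_eq] at h
  refine Metric.exists_dist_lt_of_hausdorffDist_lt hx h ?_
  exact Metric.hausdorffEDist_ne_top_of_nonempty_of_bounded K.nonempty L.nonempty
    K.isCompact.isBounded L.isCompact.isBounded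

/-- the index set of the points of `K` in the family `N` -/
def idx (K : Set X) (N : ℕ) (c : Bool) : Set ((ℕ → Bool) × OnePoint ℕ) :=
  {a | ∃ z ∈ K, ∀ n, N ≤ n → z.1 n = tl N c a.1 a.2 n}

lemma isClosed_idx {K : Set X} (hK : IsCompact K) (N : ℕ) (c : Bool) : IsClosed (idx K N c) := by
  let Ψ : (ℕ → Bool) × OnePoint ℕ → (ℕ → Sy) := fun a n => tl N c a.1 a.2 (N + n)
  have hΨ : Continuous Ψ := continuous_pi fun n => continuous_tl N c (N + n)
  let Φ : X → (ℕ → Sy) := fun x n => x.1 (N + n)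
  have hΦ : Continuous Φ := continuous_pi fun n => continuous_coord (N + n)
  have h1 : idx K N c = Ψ ⁻¹' (Φ '' K) := by
    ext a
    constructor
    · rintro ⟨z, hz, h⟩
      exact ⟨z, hz, funext fun n => h (N + n) (by omega)⟩
    · rintro ⟨z, hz, h⟩
      refine ⟨z, hz, fun n hn => ?_⟩
      have := congrFun h (n - N)
      change z.1 (N + (n - N)) = tl N c a.1 a.2 (N + (n - N)) at this
      rwa [Nat.add_sub_cancel' hn] at this
  rw [h1]
  exact (hK.image hΦ).isClosed.preimage hΨ

/-- the key contradiction -/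
lemma no_prox {K L : NonemptyCompacts X} (hK : ∀ z ∈ (K : Set X), SP true z.1)
    (hL : ∀ z ∈ (L : Set X), SP false z.1)
    (h : ∃ᶠ n in atTop, dist ((NonemptyCompacts.map f continuous_f)^[n] K)
      ((NonemptyCompacts.map f continuous_f)^[n] L) < 1) : False := by
  -- symbols at good times
  have hgood : ∀ n, dist ((NonemptyCompacts.map f continuous_f)^[n] K)
      ((NonemptyCompacts.map f continuous_f)^[n] L) < 1 →
      (∀ z ∈ (K : Set X), ∃ z' ∈ (L : Set X), z.1 n = z'.1 n) ∧
      (∀ z ∈ (L : Set X), ∃ z' ∈ (K : Set X), z.1 n = z'.1 n) := by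
    intro n hn
    constructor
    · intro z hz
      obtain ⟨y, hy, hd⟩ := exists_near hn (x := f^[n] z) (by rw [map_iter]; exact ⟨z, hz, rfl⟩)
      rw [map_iter] at hy
      obtain ⟨z', hz', rfl⟩ := hy
      refine ⟨z', hz', ?_⟩
      have := dist_lt_one hd
      rwa [iter_apply, iter_apply] at this
    · intro z hz
      rw [dist_comm] at hn
      obtain ⟨y, hy, hd⟩ := exists_near hn (x := f^[n] z) (by rw [map_iter]; exact ⟨z, hz, rfl⟩)
      rw [map_iter] at hy
      obtain ⟨z', hz', rfl⟩ := hy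
      refine ⟨z', hz', ?_⟩
      have := dist_lt_one hd
      rwa [iter_apply, iter_apply] at this
  -- families of the points
  have hKfam : ∀ z ∈ (K : Set X), ∀ N β e, 1 ≤ N → (∀ n, N ≤ n → z.1 n = tl N true β e n) →
      ∀ n, N ≤ n → dist ((NonemptyCompacts.map f continuous_f)^[n] K)
      ((NonemptyCompacts.map f continuous_f)^[n] L) < 1 → act n = N := by
    intro z hz N β e hN htail n hn hd
    obtain ⟨z', hz', heq⟩ := (hgood n hd).1 z hz
    obtain ⟨N', β', e', h'⟩ := (hL z' hz').2.1 n (by omega)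
    rw [htail n hn, h'] at heq
    exact (tl_match (c := true) heq).2
  have hLfam : ∀ z ∈ (L : Set X), ∀ N β e, 1 ≤ N → (∀ n, N ≤ n → z.1 n = tl N false β e n) →
      ∀ n, N ≤ n → dist ((NonemptyCompacts.map f continuous_f)^[n] K)
      ((NonemptyCompacts.map f continuous_f)^[n] L) < 1 → act n = N := by
    intro z hz N β e hN htail n hn hd
    obtain ⟨z', hz', heq⟩ := (hgood n hd).2 z hz
    obtain ⟨N', β', e', h'⟩ := (hK z' hz').2.1 n (by omega)
    rw [htail n hn, h'] at heq
    exact (tl_match (c := false) heq).2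
  -- a reference point
  obtain ⟨z₀, hz₀⟩ := K.nonempty
  obtain ⟨-, -, N, β₀, e₀, hN, htail₀⟩ := hK z₀ hz₀
  have hKN : ∀ z ∈ (K : Set X), ∃ β e, ∀ n, N ≤ n → z.1 n = tl N true β e n := by
    intro z hz
    obtain ⟨-, -, N', β, e, hN', htail⟩ := hK z hz
    obtain ⟨n, hn, hd⟩ := (frequently_atTop.1 h) (max N N')
    have h1 := hKfam z₀ hz₀ N β₀ e₀ hN htail₀ n ((le_max_left _ _).trans hn) hd
    have h2 := hKfam z hz N' β e hN' htail n ((le_max_right _ _).trans hn) hd
    have : N' = N := h2.symm.trans h1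
    subst this
    exact ⟨β, e, htail⟩
  have hLN : ∀ z ∈ (L : Set X), ∃ β e, ∀ n, N ≤ n → z.1 n = tl N false β e n := by
    intro z hz
    obtain ⟨-, -, N', β, e, hN', htail⟩ := hL z hz
    obtain ⟨n, hn, hd⟩ := (frequently_atTop.1 h) (max N N')
    have h1 := hKfam z₀ hz₀ N β₀ e₀ hN htail₀ n ((le_max_left _ _).trans hn) hd
    have h2 := hLfam z hz N' β e hN' htail n ((le_max_right _ _).trans hn) hd
    have : N' = N := h2.symm.trans h1
    subst this
    exact ⟨β, e, htail⟩
  -- minimal height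
  set R := idx K N true ∪ idx L N false with hR
  have hRc : IsCompact R :=
    ((isClosed_idx K.isCompact N true).union (isClosed_idx L.isCompact N false)).isCompact
  have hRne : R.Nonempty := ⟨(β₀, e₀), Or.inl ⟨z₀, hz₀, htail₀⟩⟩
  obtain ⟨a, ha, hmin⟩ := hRc.exists_isMinOn hRne
    (continuous_ht.comp (continuous_fst : Continuous fun a : (ℕ → Bool) × OnePoint ℕ => a.1)).continuousOn
  -- a good time with level different from the exceptional level of `a`
  obtain ⟨n, hn, hd, hne⟩ : ∃ n, N ≤ n ∧ dist ((NonemptyCompacts.map f continuous_f)^[n] K)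
      ((NonemptyCompacts.map f continuous_f)^[n] L) < 1 ∧
      a.2 ≠ ((Nat.sqrt n : ℕ) : OnePoint ℕ) := by
    have hM : ∃ M, ∀ n, M ≤ n → a.2 ≠ ((Nat.sqrt n : ℕ) : OnePoint ℕ) := by
      rcases eq_or_ne a.2 OnePoint.infty with h0 | h0
      · exact ⟨0, fun n _ => by rw [h0]; exact OnePoint.infty_ne_coe _⟩
      · obtain ⟨k, hk⟩ := OnePoint.ne_infty_iff_exists.1 h0
        refine ⟨(k + 1) * (k + 1), fun n hn => ?_⟩
        rw [← hk]
        intro heq
        have h1 : k = Nat.sqrt n := OnePoint.coe_injective heq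
        have h2 : k + 1 ≤ Nat.sqrt n := Nat.le_sqrt.2 hn
        omega
    obtain ⟨M, hM⟩ := hM
    obtain ⟨n, hn, hd⟩ := (frequently_atTop.1 h) (max N M)
    exact ⟨n, (le_max_left _ _).trans hn, hd, hM n ((le_max_right _ _).trans hn)⟩
  rcases ha with ⟨z, hz, htail⟩ | ⟨z, hz, htail⟩
  · obtain ⟨z', hz', heq⟩ := (hgood n hd).1 z hz
    obtain ⟨β', e', htail'⟩ := hLN z' hz'
    rw [htail n hn, htail' n hn] at heq
    have hlt := exceptional_lower (c := true) heq hne
    have hmem : (β', e') ∈ R := Or.inr ⟨z', hz', htail'⟩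
    have : ht a.1 ≤ ht β' := hmin hmem
    linarith
  · obtain ⟨z', hz', heq⟩ := (hgood n hd).2 z hz
    obtain ⟨β', e', htail'⟩ := hKN z' hz'
    rw [htail n hn, htail' n hn] at heq
    have hlt := exceptional_lower (c := false) heq hne
    have hmem : (β', e') ∈ R := Or.inl ⟨z', hz', htail'⟩
    have : ht a.1 ≤ ht β' := hmin hmem
    linarith

theorem not_denseProximalHyper : ¬ DenseProximalHyper f continuous_f := by
  intro h
  obtain ⟨K, L, hK, hL, hprox⟩ := h {base true} {base false} 1 one_pos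
  refine no_prox (K := K) (L := L) (fun z hz => ?_) (fun z hz => ?_) (hprox 1 one_pos)
  · rw [dist_comm] at hK
    obtain ⟨y, hy, hd⟩ := exists_near hK hz
    have hy' : y = base true := hy
    subst hy'
    exact SP_of_near (dist_lt_one hd)
  · rw [dist_comm] at hL
    obtain ⟨y, hy, hd⟩ := exists_near hL hz
    have hy' : y = base false := hy
    subst hy'
    exact SP_of_near (dist_lt_one hd)

/-- **MP_24ecc9, Q1 (negative answer).**  There are a metric space `X` and a continuous map `f`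
such that the Zadeh extension has a dense proximal relation for the endograph metric but the
hyperextension has no dense proximal relation. -/
theorem result : ∃ (X : Type) (_ : MetricSpace X) (f : X → X) (hf : Continuous f),
    DenseProximalFuzzy f ∧ ¬ DenseProximalHyper f hf :=
  ⟨X, inferInstance, f, continuous_f, denseProximalFuzzy, not_denseProximalHyper⟩

end Pool.Agent.Results.MP_24ecc9_an.ZigZag
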